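import Pool.Agent.Zk81.Kempe.ThreeK1

/-!
The 3-prism has two 3-colourings which are not Kempe equivalent.
-/

set_option autoImplicit false

namespace Pool.Agent.Zk81.Kempe

open Pool.Agent.H411R2.WSK SimpleGraph

/-- Adjacency in the prism: two triangles `0,1,2` and `3,4,5`, and the edges `03`, `14`, `25`. -/
def padj (u v : Fin 6) : Bool :=
  (u != v) && ((u.val / 3 == v.val / 3) || (u.val % 3 == v.val % 3))

/-- The 3-prism. -/
def prism : SimpleGraph (Fin 6) where
  Adj u v := padj u v = true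
  symm := ⟨by decide⟩
  loopless := ⟨by decide⟩

instance : DecidableRel prism.Adj := fun u v => inferInstanceAs (Decidable (padj u v = true))

lemma prism_indep : ∀ x y z : Fin 6, x ≠ y → y ≠ z → x ≠ z → ¬ prism.Adj x y → ¬ prism.Adj y z →
    ¬ prism.Adj x z → False := by
  decide

/-- A frozen colouring. -/
def colA : prism.Coloring (Fin 3) := SimpleGraph.Coloring.mk ![0, 1, 2, 1, 2, 0] (by
  intro v w
  revert v w
  decide)

/-- Another frozen colouring. -/
def colB : prism.Coloring (Fin 3) := SimpleGraph.Coloring.mk ![0, 1, 2, 2, 0, 1] (by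
  intro v w
  revert v w
  decide)

/-- The colours repeat in the pattern of the first colouring. -/
def Pat (c : Fin 6 → Fin 3) : Prop := c 0 = c 5 ∧ c 1 = c 3 ∧ c 2 = c 4

/-- The set `u` is a union of Kempe chains. -/
def closedB (c : Fin 6 → Fin 3) (a b : Fin 3) (u : Fin 6 → Bool) : Prop :=
  ∀ v w : Fin 6, padj v w = true → u v = true → (c v = a ∨ c v = b) → (c w = a ∨ c w = b) →
    u w = true

instance (c : Fin 6 → Fin 3) (a b : Fin 3) (u : Fin 6 → Bool) : Decidable (closedB c a b u) := by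
  unfold closedB; infer_instance

/-- The chains contain both or none of the two vertices of a colour. -/
def goalB (x y z a b : Fin 3) (u : Fin 6 → Bool) : Prop :=
  ((x = a ∨ x = b) → (u 0 = true ↔ u 5 = true)) ∧
      ((y = a ∨ y = b) → (u 1 = true ↔ u 3 = true)) ∧
      ((z = a ∨ z = b) → (u 2 = true ↔ u 4 = true))

instance (x y z a b : Fin 3) (u : Fin 6 → Bool) : Decidable (goalB x y z a b u) := by
  unfold goalB; infer_instance

lemma core : ∀ (x y z a b : Fin 3), x ≠ y → y ≠ z → x ≠ z → a ≠ b →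
    ∀ u0 u1 u2 u3 u4 u5 : Bool,
      closedB ![x, y, z, y, z, x] a b ![u0, u1, u2, u3, u4, u5] →
      goalB x y z a b ![u0, u1, u2, u3, u4, u5] := by
  decide +kernel

lemma pat_step {c c' : prism.Coloring (Fin 3)} (h : KempeStep c c') (hc : Pat c) : Pat c' := by
  classical
  obtain ⟨a, b, hab, U, hU, hs⟩ := h.closed
  obtain ⟨h0, h1, h2⟩ := hc
  have n1 : c 0 ≠ c 1 := c.valid (by decide)
  have n2 : c 1 ≠ c 2 := c.valid (by decide)
  have n3 : c 0 ≠ c 2 := c.valid (by decide)
  have hcv : ∀ v : Fin 6, ![c 0, c 1, c 2, c 1, c 2, c 0] v = c v := by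
    intro v
    fin_cases v
    · rfl
    · rfl
    · rfl
    · exact h1
    · exact h2
    · exact h0
  have hUv : ∀ v : Fin 6, (![decide (0 ∈ U), decide (1 ∈ U), decide (2 ∈ U), decide (3 ∈ U),
      decide (4 ∈ U), decide (5 ∈ U)] v = true) ↔ v ∈ U := by
    intro v
    fin_cases v <;> simp
  have key := core (c 0) (c 1) (c 2) a b n1 n2 n3 hab (decide (0 ∈ U)) (decide (1 ∈ U))
    (decide (2 ∈ U)) (decide (3 ∈ U)) (decide (4 ∈ U)) (decide (5 ∈ U)) (by
      intro v w hvw hv _ hw
      rw [hUv] at hv ⊢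
      rw [hcv] at hw
      exact hU.2 v hv w hvw hw)
  unfold goalB at key
  simp only [hUv] at key
  have fin : ∀ v w : Fin 6, c v = c w → ((c v = a ∨ c v = b) → (v ∈ U ↔ w ∈ U)) → c' v = c' w := by
    intro v w hvw hiff
    by_cases hv : v ∈ U
    · have hw := (hiff (hU.1 v hv)).1 hv
      rw [hs.1 v hv, hs.1 w hw, hvw]
    · by_cases hw : w ∈ U
      · have h3 := hU.1 w hw
        rw [← hvw] at h3
        exact absurd ((hiff h3).2 hw) hv
      · rw [hs.2 v hv, hs.2 w hw, hvw]
  exact ⟨fin 0 5 h0 key.1, fin 1 3 h1 key.2.1, fin 2 4 h2 key.2.2⟩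

lemma not_reach : ¬ Relation.ReflTransGen KempeStep colA colB := by
  intro h
  have : Pat colB := by
    have key : ∀ c : prism.Coloring (Fin 3), Relation.ReflTransGen KempeStep colA c → Pat c := by
      intro c hc
      induction hc with
      | refl => exact ⟨rfl, rfl, rfl⟩
      | tail _ h ih => exact pat_step h ih
    exact key _ h
  exact absurd this.1 (by decide)

end Pool.Agent.Zk81.Kempe
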