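import Pool.Agent.H411R2.WSK.Kempe

/-!
Kempe equivalence of the colourings of graphs with independence number at most two.
-/

set_option autoImplicit false

namespace Pool.Agent.Zk81.Kempe

open Pool.Agent.H411R2.WSK SimpleGraph Finset

variable {V : Type*} {G : SimpleGraph V} {m : ℕ}

/-- `c'` can be reached from `c` by Kempe changes. -/
abbrev Reach (c c' : G.Coloring (Fin m)) : Prop := Relation.ReflTransGen KempeStep c c'

lemma step_symm [Finite V] {c c' : G.Coloring (Fin m)} (h : KempeStep c c') : Reach c' c := by
  obtain ⟨a, b, hab, U, hU, hs⟩ := h.closed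
  refine reach_of_closed hab _ c' c U rfl ⟨?_, ?_⟩ ⟨?_, ?_⟩
  · intro v hv; rw [hs.1 v hv]; exact swap_mem (hU.1 v hv)
  · intro v hv w hvw hw
    by_contra hwU
    rw [hs.2 w hwU] at hw
    exact hwU (hU.2 v hv w hvw hw)
  · intro v hv; rw [hs.1 v hv]; simp
  · intro v hv; rw [hs.2 v hv]

lemma reach_symm [Finite V] {c c' : G.Coloring (Fin m)} (h : Reach c c') : Reach c' c := by
  induction h with
  | refl => exact .refl
  | tail _ h ih => exact (step_symm h).trans ih

/-- A vertex can be recoloured with a colour missing in its neighbourhood. -/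
lemma recolor [Finite V] [DecidableEq V] (c : G.Coloring (Fin m)) (v : V) (a : Fin m)
    (h : ∀ w, G.Adj v w → c w ≠ a) :
    ∃ c1 : G.Coloring (Fin m), (∀ w, c1 w = if w = v then a else c w) ∧ Reach c c1 := by
  by_cases ha : c v = a
  · refine ⟨c, fun w => ?_, .refl⟩
    split_ifs with hw
    · rw [hw, ha]
    · rfl
  · have hs : IsSwap (c : V → Fin m) (fun w => if w = v then a else c w) (c v) a {v} := by
      constructor
      · intro w hw; rw [Set.mem_singleton_iff] at hw; subst hw; simp
      · intro w hw; rw [Set.mem_singleton_iff] at hw; simp [hw]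
    have hcl : Closed G c (c v) a {v} := by
      constructor
      · intro w hw; rw [Set.mem_singleton_iff] at hw; subst hw; left; rfl
      · intro w hw x hx hxc
        rw [Set.mem_singleton_iff] at hw; subst hw
        rcases hxc with h1 | h1
        · exact absurd h1.symm (c.valid hx)
        · exact absurd h1 (h x hx)
    let c1 : G.Coloring (Fin m) := SimpleGraph.Coloring.mk (fun w => if w = v then a else c w)
      (fun {x y} hxy => proper_of_swap (fun v w h => c.valid h) hcl hs x y hxy)
    exact ⟨c1, fun w => rfl, reach_of_closed ha _ c c1 {v} rfl hcl hs⟩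

/-- Permuting the colours. -/
def permC (π : Equiv.Perm (Fin m)) (c : G.Coloring (Fin m)) : G.Coloring (Fin m) :=
  SimpleGraph.Coloring.mk (fun v => π (c v)) (fun {_ _} h h' => c.valid h (π.injective h'))

lemma permC_apply (π : Equiv.Perm (Fin m)) (c : G.Coloring (Fin m)) (v : V) :
    permC π c v = π (c v) := rfl

lemma reach_perm [Finite V] (π : Equiv.Perm (Fin m)) (c : G.Coloring (Fin m)) :
    Reach c (permC π c) := by
  induction π using Equiv.Perm.swap_induction_on with
  | one =>
    have : permC 1 c = c := by
      apply DFunLike.ext; intro v; rfl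
    rw [this]
  | swap_mul f x y hxy ih =>
    refine ih.trans ?_
    refine reach_of_closed hxy _ (permC f c) (permC (Equiv.swap x y * f) c)
      {v | permC f c v = x ∨ permC f c v = y} rfl ⟨fun v hv => hv, fun v _ w _ hw => hw⟩
      ⟨fun v _ => rfl, fun v hv => ?_⟩
    rw [Set.mem_ofPred_eq, not_or] at hv
    rw [permC_apply, Equiv.Perm.coe_mul, Function.comp_apply, ← permC_apply f,
      Equiv.swap_apply_of_ne_of_ne hv.1 hv.2]

section

variable [Fintype V] [DecidableEq V]

/-- The number of ordered pairs of vertices with equal colours in both colourings. -/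
def Phi (c c' : V → Fin m) : ℕ :=
  ((univ : Finset (V × V)).filter fun p => c p.1 = c p.2 ∧ c' p.1 = c' p.2).card

/-- Sum of the reciprocals of the sizes of the classes. -/
lemma sum_inv (c : V → Fin m) :
    ∑ v : V, (1 / (((univ.filter fun w => c w = c v).card : ℕ) : ℚ)) = ((univ.image c).card : ℚ) := by
  rw [← Finset.sum_fiberwise_of_maps_to (s := univ) (t := univ.image c) (g := c)
    (fun v _ => mem_image_of_mem c (mem_univ v))]
  rw [Finset.card_eq_sum_ones, Nat.cast_sum]
  apply Finset.sum_congr rfl
  intro a ha
  obtain ⟨v, -, hv⟩ := mem_image.1 ha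
  have h1 : ∀ w ∈ univ.filter (fun w => c w = a),
      (1 / (((univ.filter fun x => c x = c w).card : ℕ) : ℚ)) =
        1 / (((univ.filter fun x => c x = a).card : ℕ) : ℚ) := by
    intro w hw
    rw [(mem_filter.1 hw).2]
  rw [Finset.sum_congr rfl h1, Finset.sum_const, nsmul_eq_mul]
  have h2 : (((univ.filter fun x => c x = a).card : ℕ) : ℚ) ≠ 0 := by
    have : 0 < (univ.filter fun x => c x = a).card := card_pos.2 ⟨v, by simp [hv]⟩
    positivity
  rw [mul_one_div_cancel h2]
  simp

/-- One improvement. -/
lemma improve (h3 : ∀ x y z : V, x ≠ y → y ≠ z → x ≠ z → ¬ G.Adj x y → ¬ G.Adj y z →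
      ¬ G.Adj x z → False)
    (c c' : G.Coloring (Fin m)) (hc' : (univ.image (c' : V → Fin m)).card < m)
    (hne : ∃ u v, c' u = c' v ∧ c u ≠ c v) :
    ∃ c1 : G.Coloring (Fin m), Reach c c1 ∧ Phi c c' < Phi c1 c' := by
  have nadj : ∀ (d : G.Coloring (Fin m)) {x y : V}, d x = d y → ¬ G.Adj x y :=
    fun d x y h hxy => d.valid hxy h
  by_cases hA : ∃ u v, c' u = c' v ∧ c u ≠ c v ∧ ∀ w, w ≠ u → c w ≠ c u
  · obtain ⟨u, v, h1, h2, hsing⟩ := hA
    have huv : u ≠ v := fun h => h2 (by rw [h])
    obtain ⟨c1, hc1, hr⟩ := recolor c v (c u) (by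
      intro w hw hcw
      by_cases hwu : w = u
      · subst hwu
        exact nadj c' h1 hw.symm
      · exact hsing w hwu hcw)
    refine ⟨c1, hr, ?_⟩
    apply Finset.card_lt_card
    rw [Finset.ssubset_iff_of_subset]
    · refine ⟨(u, v), ?_, ?_⟩
      · rw [mem_filter]
        refine ⟨mem_univ _, ?_, h1⟩
        rw [hc1, hc1, if_neg huv, if_pos rfl]
      · rw [mem_filter]
        rintro ⟨-, h4, -⟩
        exact h2 h4
    · rintro ⟨x, y⟩ hxy
      rw [mem_filter] at hxy ⊢
      obtain ⟨-, h4, h5⟩ := hxy
      refine ⟨mem_univ _, ?_, h5⟩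
      simp only at h4 h5 ⊢
      -- no pair involves v, unless x = y
      by_cases hxy : x = y
      · rw [hxy]
      have hv : ∀ y, y ≠ v → c v = c y → c' v = c' y → False := by
        intro y hyv e1 e2
        have hyu : u ≠ y := by
          rintro rfl
          exact h2 e1.symm
        exact h3 u v y huv (Ne.symm hyv) hyu (nadj c' h1) (nadj c' e2) (nadj c' (h1.trans e2))
      have hx : x ≠ v := by
        rintro rfl
        exact hv y (Ne.symm hxy) h4 h5
      have hy : y ≠ v := by
        rintro rfl
        exact hv x hxy h4.symm h5.symm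
      rw [hc1, hc1, if_neg hx, if_neg hy]
      exact h4
  · push Not at hA
    -- `c` has an empty colour class
    have hle : ((univ.image (c : V → Fin m)).card : ℚ) ≤ ((univ.image (c' : V → Fin m)).card : ℚ) := by
      rw [← sum_inv, ← sum_inv]
      apply Finset.sum_le_sum
      intro v _
      have hpos : ∀ d : G.Coloring (Fin m), 0 < (univ.filter fun w => d w = d v).card :=
        fun d => card_pos.2 ⟨v, by simp⟩
      apply one_div_le_one_div_of_le
      · exact_mod_cast hpos c'
      · norm_cast
        -- the class of `v` in `c'` has at most two elements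
        by_cases hs : ∃ w, w ≠ v ∧ c w = c v
        · obtain ⟨w, hwv, hw⟩ := hs
          have h2 : 2 ≤ (univ.filter fun w => c w = c v).card := by
            have : ({w, v} : Finset V) ⊆ univ.filter fun w => c w = c v := by
              intro x hx
              rw [mem_insert, mem_singleton] at hx
              rw [mem_filter]
              rcases hx with rfl | rfl
              · exact ⟨mem_univ _, hw⟩
              · exact ⟨mem_univ _, rfl⟩
            have h4 := card_le_card this
            rwa [card_pair hwv] at h4
          refine le_trans ?_ h2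
          by_contra hcon
          rw [not_le, Finset.two_lt_card] at hcon
          obtain ⟨x, hx, y, hy, z, hz, hxy, hxz, hyz⟩ := hcon
          rw [mem_filter] at hx hy hz
          exact h3 x y z hxy hyz hxz (nadj c' (hx.2.trans hy.2.symm))
            (nadj c' (hy.2.trans hz.2.symm)) (nadj c' (hx.2.trans hz.2.symm))
        · push Not at hs
          have h1 : (univ.filter fun w => c' w = c' v).card ≤ 1 := by
            rw [Finset.card_le_one]
            intro x hx y hy
            rw [mem_filter] at hx hy
            have key : ∀ x, c' x = c' v → x = v := by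
              intro x hx
              by_contra hxv
              obtain ⟨w, hw1, hw2⟩ := hA v x hx.symm (fun h => hs x hxv h.symm)
              exact hs w hw1 hw2
            rw [key x hx.2, key y hy.2]
          exact h1.trans (hpos c)
    have hlt : (univ.image (c : V → Fin m)).card < m := by
      have : (univ.image (c : V → Fin m)).card ≤ (univ.image (c' : V → Fin m)).card := by
        exact_mod_cast hle
      omega
    obtain ⟨e, he⟩ : ∃ e : Fin m, ∀ w, c w ≠ e := by
      by_contra hcon
      push Not at hcon
      have : univ.image (c : V → Fin m) = univ := by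
        rw [Finset.eq_univ_iff_forall]
        intro e
        obtain ⟨w, hw⟩ := hcon e
        exact mem_image.2 ⟨w, mem_univ _, hw⟩
      rw [this, card_univ, Fintype.card_fin] at hlt
      omega
    obtain ⟨u, v, h1, h2⟩ := hne
    have huv : u ≠ v := fun h => h2 (by rw [h])
    obtain ⟨c1, hc1, hr1⟩ := recolor c v e (fun w _ => he w)
    obtain ⟨c2, hc2, hr2⟩ := recolor c1 u e (by
      intro w hw
      rw [hc1]
      split_ifs with hwv
      · subst hwv
        exact absurd hw (nadj c' h1)
      · exact he w)
    refine ⟨c2, hr1.trans hr2, ?_⟩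
    have hv2 : c2 v = e := by rw [hc2, if_neg huv.symm, hc1, if_pos rfl]
    have hu2 : c2 u = e := by rw [hc2, if_pos rfl]
    have ho : ∀ w, w ≠ u → w ≠ v → c2 w = c w := by
      intro w hwu hwv
      rw [hc2, if_neg hwu, hc1, if_neg hwv]
    apply Finset.card_lt_card
    rw [Finset.ssubset_iff_of_subset]
    · refine ⟨(u, v), ?_, ?_⟩
      · rw [mem_filter]
        refine ⟨mem_univ _, ?_, h1⟩
        simp only
        rw [hu2, hv2]
      · rw [mem_filter]
        rintro ⟨-, h4, -⟩
        exact h2 h4
    · rintro ⟨x, y⟩ hxy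
      rw [mem_filter] at hxy ⊢
      obtain ⟨-, h4, h5⟩ := hxy
      refine ⟨mem_univ _, ?_, h5⟩
      simp only at h4 h5 ⊢
      by_cases hxy : x = y
      · rw [hxy]
      have hv : ∀ y, y ≠ v → c v = c y → c' v = c' y → False := by
        intro y hyv e1 e2
        have hyu : u ≠ y := by
          rintro rfl
          exact h2 e1.symm
        exact h3 u v y huv (Ne.symm hyv) hyu (nadj c' h1) (nadj c' e2) (nadj c' (h1.trans e2))
      have hu : ∀ y, y ≠ u → c u = c y → c' u = c' y → False := by
        intro y hyu e1 e2
        have hyv : v ≠ y := by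
          rintro rfl
          exact h2 e1
        exact h3 v u y huv.symm (Ne.symm hyu) hyv (nadj c' h1.symm) (nadj c' e2)
          (nadj c' (h1.symm.trans e2))
      have hxv : x ≠ v := by
        rintro rfl
        exact hv y (Ne.symm hxy) h4 h5
      have hyv : y ≠ v := by
        rintro rfl
        exact hv x hxy h4.symm h5.symm
      have hxu : x ≠ u := by
        rintro rfl
        exact hu y (Ne.symm hxy) h4 h5
      have hyu : y ≠ u := by
        rintro rfl
        exact hu x hxy h4.symm h5.symm
      rw [ho x hxu hxv, ho y hyu hyv]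
      exact h4

lemma Phi_le (c c' : V → Fin m) : Phi c c' ≤ Fintype.card (V × V) := by
  unfold Phi
  exact card_filter_le _ _

/-- Every colouring can be changed into one whose classes are unions of those of `c'`. -/
lemma reach_coarser (h3 : ∀ x y z : V, x ≠ y → y ≠ z → x ≠ z → ¬ G.Adj x y → ¬ G.Adj y z →
      ¬ G.Adj x z → False)
    (c' : G.Coloring (Fin m)) (hc' : (univ.image (c' : V → Fin m)).card < m) :
    ∀ (N : ℕ) (c : G.Coloring (Fin m)), Fintype.card (V × V) - Phi c c' = N →
      ∃ c1 : G.Coloring (Fin m), Reach c c1 ∧ ∀ u v, c' u = c' v → c1 u = c1 v := by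
  intro N
  induction N using Nat.strong_induction_on with
  | _ N ih =>
    intro c hN
    by_cases hne : ∃ u v, c' u = c' v ∧ c u ≠ c v
    · obtain ⟨c1, hr, hlt⟩ := improve h3 c c' hc' hne
      have h1 := Phi_le (c1 : V → Fin m) c'
      obtain ⟨c2, hr2, h2⟩ := ih (Fintype.card (V × V) - Phi c1 c') (by omega) c1 rfl
      exact ⟨c2, hr.trans hr2, h2⟩
    · push Not at hne
      exact ⟨c, .refl, hne⟩

end

/-- Two colourings with more than `k` colours of a `k`-colourable graph with independence number
at most two are Kempe equivalent. -/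
theorem reach_all [Finite V] (h3 : ∀ x y z : V, x ≠ y → y ≠ z → x ≠ z → ¬ G.Adj x y → ¬ G.Adj y z →
      ¬ G.Adj x z → False) {k : ℕ} (hk : G.Colorable k) (hkm : k < m)
    (α β : G.Coloring (Fin m)) : Reach α β := by
  classical
  have := Fintype.ofFinite V
  -- a colouring with the least number of colours
  obtain ⟨γ0⟩ := hk
  let γ1 : G.Coloring (Fin m) := SimpleGraph.Coloring.mk (fun v => Fin.castLE hkm.le (γ0 v))
    (fun {v w} h h' => γ0.valid h (Fin.castLE_injective hkm.le h'))
  have hγ1 : (univ.image (γ1 : V → Fin m)).card ≤ k := by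
    have : univ.image (γ1 : V → Fin m) ⊆ univ.image (Fin.castLE hkm.le) := by
      intro x hx
      obtain ⟨v, -, rfl⟩ := mem_image.1 hx
      exact mem_image.2 ⟨γ0 v, mem_univ _, rfl⟩
    refine (card_le_card this).trans (card_image_le.trans ?_)
    simp
  obtain ⟨γ, hγ⟩ : ∃ γ : G.Coloring (Fin m), ∀ δ : G.Coloring (Fin m),
      (univ.image (γ : V → Fin m)).card ≤ (univ.image (δ : V → Fin m)).card := by
    have hne : (Set.range fun δ : G.Coloring (Fin m) => (univ.image (δ : V → Fin m)).card).Nonempty :=
      ⟨_, γ1, rfl⟩
    obtain ⟨γ, hγ⟩ := Nat.sInf_mem hne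
    refine ⟨γ, fun δ => ?_⟩
    simp only at hγ
    rw [hγ]
    exact Nat.sInf_le ⟨δ, rfl⟩
  have hγm : (univ.image (γ : V → Fin m)).card < m := by
    have := hγ γ1
    omega
  -- every colouring reaches a permutation of `γ`, hence `γ`
  have key : ∀ c : G.Coloring (Fin m), Reach c γ := by
    intro c
    obtain ⟨c1, hr, h1⟩ := reach_coarser h3 γ hγm _ c rfl
    -- `c1 = π ∘ γ`
    have hfac : ∃ f : Fin m → Fin m, ∀ v, c1 v = f (γ v) := by
      refine ⟨fun i => if h : ∃ v, γ v = i then c1 h.choose else i, fun v => ?_⟩
      have h : ∃ w, γ w = γ v := ⟨v, rfl⟩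
      simp only
      rw [dif_pos h]
      exact h1 v h.choose h.choose_spec.symm
    obtain ⟨f, hf⟩ := hfac
    have himg : univ.image (c1 : V → Fin m) = (univ.image (γ : V → Fin m)).image f := by
      rw [image_image]
      apply image_congr
      intro v _
      exact hf v
    have hinj : Set.InjOn f (univ.image (γ : V → Fin m) : Finset (Fin m)) := by
      rw [← Finset.card_image_iff]
      apply le_antisymm card_image_le
      rw [← himg]
      exact hγ c1
    obtain ⟨g, hg⟩ := Finset.exists_equiv_extend_of_card_eq (t := (univ : Finset (Fin m)))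
      (by simp) (s := univ.image (γ : V → Fin m)) (f := f) (by simp) hinj
    let π : Equiv.Perm (Fin m) := g.trans (Equiv.subtypeUnivEquiv (fun _ => mem_univ _))
    have hπ : permC π γ = c1 := by
      apply DFunLike.ext
      intro v
      rw [permC_apply, hf]
      exact hg (γ v) (mem_image_of_mem _ (mem_univ v))
    have h2 := reach_perm π γ
    rw [hπ] at h2
    exact hr.trans (reach_symm h2)
  exact (key α).trans (reach_symm (key β))

end Pool.Agent.Zk81.Kempe
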